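import Pool.Agent.ANO5.Lev.Level
import Pool.Agent.ANO5.A2.Dim.RankConst

/-!
# ANO5, module Lev: the torus functions with values in the two parts of `ℝ^k`

`VU D` is the range of the expanding projection of `A`, `VS D' = VU D'` that of `A⁻¹`.
`tu D T`, `tu D' T⁻¹` are the torus functions. `splitEquiv : ℝ^k ≃ VU D × VU D'`.
-/

set_option autoImplicit false

open scoped UpperHalfPlane MatrixGroups
open Set Filter Topology

namespace Pool.Agent.ANO5.Lev

open Pool.Agent.ANO (IsHyperbolicMatrix)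
open Pool.Agent.ANO3 Pool.Agent.ANO3.Tree Pool.Agent.ANO5.A1 Pool.Agent.ANO5.A2
  Pool.Agent.ANO5.A3 Pool.Agent.ANO5.Tor Pool.Agent.ANO5.Lin

variable [TFib] {r : ℕ} {S : Fin r → SurfaceMap}

/-- The range of the expanding projection. -/
abbrev VU (D : TData S) : Type :=
  LinearMap.range (D.sA.pr : (Fin TFib.k → ℝ) →ₗ[ℝ] (Fin TFib.k → ℝ))

variable {D : TData S} {D' : TData fun i => rev (S i)} {T₀ T : X r ≃ₜ X r}
  {F : ∀ i, Flat (S i)} {w : Fin r → ℍ} {c : (Fin TFib.k → ℝ) × (Fin TFib.k → ℝ)}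

theorem pr_coe (a : VU D) : D.sA.pr (a : Fin TFib.k → ℝ) = a := by
  obtain ⟨v, hv⟩ := a.2
  have h1 : D.sA.pr v = (a : Fin TFib.k → ℝ) := hv
  rw [← h1]
  exact DFunLike.congr_fun D.sA.pr_pr v

/-- A vector which is fixed by the projection, as an element of its range. -/
def toVU {a : Fin TFib.k → ℝ} (h : D.sA.pr a = a) : VU D := ⟨a, ⟨a, h⟩⟩

/-- The torus function. -/
noncomputable def tu (D : TData S) (T : X r → X r) (x : X r) : VU D :=
  ⟨TU D T x, ⟨TU D T x, pr_TU T x⟩⟩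

/-- The torus function of the family. -/
noncomputable def tuI (D : TData S) (T₀ T : X r → X r) (y : unitInterval × X r) : VU D :=
  ⟨TUI D T₀ T y, ⟨TUI D T₀ T y, pr_TUI T₀ T y⟩⟩

theorem coe_tu (T : X r → X r) (x : X r) : (tu D T x : Fin TFib.k → ℝ) = TU D T x := rfl

theorem coe_tuI (T₀ T : X r → X r) (y : unitInterval × X r) :
    (tuI D T₀ T y : Fin TFib.k → ℝ) = TUI D T₀ T y := rfl

theorem tuI_one (x : X r) : tuI D T₀ T (1, x) = tu D T x := Subtype.ext (TUI_one _ _ _)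

theorem tuI_zero (x : X r) : tuI D T₀ T (0, x) = tu D T₀ x := Subtype.ext (TUI_zero _ _ _)

theorem Sit.continuous_tu (h : Sit D D' T₀ T) : Continuous (tu D T) :=
  (continuous_TU h.set h.model).subtype_mk _

theorem Sit.continuous_ts (h : Sit D D' T₀ T) : Continuous (tu D' T.symm) :=
  (continuous_TU h.set.symm h.model').subtype_mk _

theorem Sit.continuous_tuI (h : Sit D D' T₀ T) : Continuous (tuI D T₀ T) :=
  (continuous_TUI h.set h.model).subtype_mk _

theorem Sit.continuous_tsI (h : Sit D D' T₀ T) : Continuous (tuI D' T₀.symm T.symm) :=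
  (continuous_TUI h.set.symm h.model').subtype_mk _

/-- `ℝ^k` is the sum of the two parts. -/
theorem exists_splitEquiv (h : Sit D D' T₀ T) :
    ∃ L : (Fin TFib.k → ℝ) ≃L[ℝ] VU D × VU D', (∀ v, ((L v).1 : Fin TFib.k → ℝ) = D.sA.pr v) ∧
      (∀ v, ((L v).2 : Fin TFib.k → ℝ) = D'.sA.pr v) ∧
      ∀ p, L.symm p = (p.1 : Fin TFib.k → ℝ) + (p.2 : Fin TFib.k → ℝ) := by
  have hz : ∀ b : VU D', D.sA.pr (b : Fin TFib.k → ℝ) = 0 := fun b => by
    have h1 := pr_coe b
    rw [pr_inv' h] at h1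
    exact sub_eq_self.1 h1
  let e : (Fin TFib.k → ℝ) ≃ₗ[ℝ] VU D × VU D' :=
    { toFun := fun v => (⟨D.sA.pr v, ⟨v, rfl⟩⟩, ⟨D'.sA.pr v, ⟨v, rfl⟩⟩)
      invFun := fun p => (p.1 : Fin TFib.k → ℝ) + (p.2 : Fin TFib.k → ℝ)
      map_add' := fun v w => by
        refine Prod.ext (Subtype.ext ?_) (Subtype.ext ?_)
        · exact map_add _ _ _
        · exact map_add _ _ _
      map_smul' := fun a v => by
        refine Prod.ext (Subtype.ext ?_) (Subtype.ext ?_)
        · exact map_smul _ _ _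
        · exact map_smul _ _ _
      left_inv := fun v => by
        change D.sA.pr v + D'.sA.pr v = v
        rw [pr_inv' h]
        abel
      right_inv := fun p => by
        refine Prod.ext (Subtype.ext ?_) (Subtype.ext ?_)
        · change D.sA.pr ((p.1 : Fin TFib.k → ℝ) + p.2) = p.1
          rw [map_add, pr_coe, hz, add_zero]
        · change D'.sA.pr ((p.1 : Fin TFib.k → ℝ) + p.2) = p.2
          rw [pr_inv' h, map_add, pr_coe, hz, add_zero, add_sub_cancel_left] }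
  exact ⟨e.toContinuousLinearEquiv, fun v => rfl, fun v => rfl, fun p => rfl⟩

theorem finrank_VU (h : Sit D D' T₀ T) :
    Module.finrank ℝ (VU D) + Module.finrank ℝ (VU D') = TFib.k := by
  obtain ⟨L, -⟩ := exists_splitEquiv h
  have h1 := L.toLinearEquiv.finrank_eq
  rw [Module.finrank_prod, Module.finrank_fin_fun] at h1
  exact h1.symm

theorem finrank_V : Module.finrank ℝ Fib.V = Module.finrank ℝ TFib.base.V + TFib.k := by
  change Module.finrank ℝ (TFib.base.V × (Fin TFib.k → ℝ)) = _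
  rw [Module.finrank_prod, Module.finrank_fin_fun]

/-- If `N` is a point, `W = ℝ^k` is the sum of the two parts. -/
theorem exists_splitV (h : Sit D D' T₀ T) (h0 : Module.finrank ℝ TFib.base.V = 0) :
    ∃ Λ : Fib.V ≃L[ℝ] VU D × VU D', (∀ y, ((Λ y).1 : Fin TFib.k → ℝ) = D.sA.pr y.2) ∧
      ∀ y, ((Λ y).2 : Fin TFib.k → ℝ) = D'.sA.pr y.2 := by
  obtain ⟨L, h1, h2, -⟩ := exists_splitEquiv h
  have hs : Subsingleton TFib.base.V := Module.finrank_zero_iff.1 h0
  let e : (TFib.base.V × (Fin TFib.k → ℝ)) ≃ₗ[ℝ] (Fin TFib.k → ℝ) :=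
    { toFun := fun y => y.2
      invFun := fun t => (0, t)
      map_add' := fun _ _ => rfl
      map_smul' := fun _ _ => rfl
      left_inv := fun y => Prod.ext (Subsingleton.elim _ _) rfl
      right_inv := fun _ => rfl }
  exact ⟨e.toContinuousLinearEquiv.trans L, fun y => h1 _, fun y => h2 _⟩

/-- `c` is a level of the type `w`. -/
def RV (F : ∀ i, Flat (S i)) (D : TData S) (D' : TData fun i => rev (S i)) (T₀ : X r ≃ₜ X r)
    (w : Fin r → ℍ) (c : VU D × VU D') : Prop := RT F D D' T₀ w (c.1, c.2)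

/-- The levels of a type are dense. -/
theorem dense_RV (h : Sit D D' T₀ T) (hU : ∀ i, FUnip (F i)) (hw : IsType F w) :
    Dense {c | RV F D D' T₀ w c} := by
  rw [Metric.dense_iff]
  intro p ε hε
  obtain ⟨c, ⟨m, γ, δ, hc⟩, hd⟩ := dense_RT h hU hw (pr_coe p.1) (pr_coe p.2) hε
  refine ⟨(toVU hc.pr_u, toVU hc.pr_s), ?_, ⟨m, γ, δ, hc⟩⟩
  rw [Metric.mem_ball]
  exact hd

end Pool.Agent.ANO5.Lev
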