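import Pool.Agent.ANO5.Lev.Defs

/-!
# ANO5, module Lev: existence, powers, shifts, uniqueness and density of levels
-/

set_option autoImplicit false

open scoped UpperHalfPlane MatrixGroups
open Set Filter Topology

namespace Pool.Agent.ANO5.Lev

open Pool.Agent.ANO (IsHyperbolicMatrix)
open Pool.Agent.ANO3 Pool.Agent.ANO3.Tree Pool.Agent.ANO5.A1 Pool.Agent.ANO5.A2
  Pool.Agent.ANO5.A3 Pool.Agent.ANO5.Tor Pool.Agent.ANO5.Lin

section General

variable [Fib] {r : ℕ} {S : Fin r → SurfaceMap} {F : ∀ i, Flat (S i)} {T₀ T : X r ≃ₜ X r}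
  {m : ℕ} {γ : Fin r → SL(2, ℝ)} {δ : Equiv.Perm Fib.W}

private theorem pow_apply_Lev (G : X r ≃ₜ X r) (n : ℕ) (x : X r) : (G ^ n) x = G^[n] x := by
  induction n with
  | zero => rfl
  | succ n ih =>
    rw [pow_succ', Function.iterate_succ_apply', ← ih]
    rfl

/-- The lift `dk γ δ ∘ T^m` as a homeomorphism. -/
theorem exists_liftOf (T : X r ≃ₜ X r) (m : ℕ) (hγ : InΓ S γ) (hδ : δ ∈ Fib.Γ) :
    ∃ (T' : X r ≃ₜ X r) (H : Fin r → ℍ ≃ₜ ℍ), IsLift S T m T' H ∧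
      (∀ x, T' x = dk γ δ (T^[m] x)) ∧ ∀ i z, H i z = γ i • (S i).f^[m] z := by
  obtain ⟨g, hg⟩ := exists_dk (r := r) γ hδ
  choose H _ hH using fun i => exists_liftPow (S := S i) m (hγ i)
  have h1 : ∀ x, ((T ^ m).trans g) x = dk γ δ (T^[m] x) := fun x => by
    rw [Homeomorph.trans_apply, hg, pow_apply_Lev]
  exact ⟨(T ^ m).trans g, H, ⟨γ, δ, hγ, hδ, h1, hH⟩, h1, hH⟩

/-- `T^m` moves a deck transformation to the same one for all maps of a homotopy class. -/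
theorem hom_dk_uniform (h : Setting S T₀ T₀) (m : ℕ) (hγ : InΓ S γ) (hδ : δ ∈ Fib.Γ) :
    ∃ (γ' : Fin r → SL(2, ℝ)) (δ' : Equiv.Perm Fib.W), InΓ S γ' ∧ δ' ∈ Fib.Γ ∧
      (∀ T : X r ≃ₜ X r, Setting S T₀ T → ∀ x, T^[m] (dk γ δ x) = dk γ' δ' (T^[m] x)) ∧
      ∀ i (z : ℍ), (S i).f^[m] (γ i • z) = γ' i • (S i).f^[m] z := by
  obtain ⟨γ', δ', h1, h2, h3, -, h4⟩ := h.hom_dk_iterate m hγ hδ
  refine ⟨γ', δ', h1, h2, fun T hT x => ?_, h4⟩
  obtain ⟨γ₂, δ₂, -, -, h5, h6, -⟩ := hT.hom_dk_iterate m hγ hδ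
  rw [h6]
  obtain ⟨y, hy⟩ : ∃ y, T₀^[m] y = T^[m] x :=
    ⟨(T₀ ^ m).symm (T^[m] x), by rw [← pow_apply_Lev, Homeomorph.apply_symm_apply]⟩
  rw [← hy, ← h3, ← h5]

theorem DS_zero_lift (h : Setting S T₀ T) {T' : X r ≃ₜ X r} {H : Fin r → ℍ ≃ₜ ℍ}
    (h' : IsLift S T m T' H) {i : Fin r} {w : ℍ} (he : (F i).ds w (H i w) = 0) {x : X r}
    (hx : DS F T i (Sum.inl w) (Sum.inr x) = 0) :
    DS F T i (Sum.inl w) (Sum.inr (T' x)) = 0 := by
  have h1 := (DS_lift (F := F) h h' i (Sum.inl w) (Sum.inr x)).1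
  rw [hx] at h1
  have hl : 0 < (F i).l ^ m := pow_pos (one_pos.trans (F i).one_lt) m
  have h2 := (isTree_DS (F := F) h i).triangle (Sum.inl w) (Sum.inl (H i w)) (Sum.inr (T' x))
  rw [DS_inl, he, zero_add] at h2
  have h3 := (isTree_DS (F := F) h i).nonneg (Sum.inl w) (Sum.inr (T' x))
  have h4 := (isTree_DS (F := F) h i).nonneg (Sum.inl (H i w)) (Sum.inr (T' x))
  change (F i).l ^ m * DS F T i (Sum.inl (H i w)) (Sum.inr (T' x)) ≤ 0 at h1
  have h5 : DS F T i (Sum.inl (H i w)) (Sum.inr (T' x)) ≤ 0 :=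
    nonpos_of_mul_nonpos_right h1 hl
  linarith

theorem DU_zero_lift (h : Setting S T₀ T) {T' : X r ≃ₜ X r} {H : Fin r → ℍ ≃ₜ ℍ}
    (h' : IsLift S T m T' H) {i : Fin r} {w : ℍ} (he : (F i).du w (H i w) = 0) {x : X r}
    (hx : DU F T i (Sum.inl w) (Sum.inr x) = 0) :
    DU F T i (Sum.inl w) (Sum.inr (T' x)) = 0 := by
  have h1 := (DU_lift (F := F) h h' i (Sum.inl w) (Sum.inr x)).2
  rw [hx, mul_zero] at h1
  have h2 := (isTree_DU (F := F) h i).triangle (Sum.inl w) (Sum.inl (H i w)) (Sum.inr (T' x))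
  rw [DU_inl, he, zero_add] at h2
  have h3 := (isTree_DU (F := F) h i).nonneg (Sum.inl w) (Sum.inr (T' x))
  change DU F T i (Sum.inl (H i w)) (Sum.inr (T' x)) ≤ 0 at h1
  linarith

/-- The distances for the model itself. -/
theorem DU_self (h : Setting S T₀ T₀) (i : Fin r) (z : ℍ) (x : X r) :
    DU F T₀ i (Sum.inl z) (Sum.inr x) = (F i).du z (x.1 i) := by
  unfold DU Dis
  have h0 : ∀ n, (st (S i).f T₀)^[n] (Sum.inr x) = Sum.inr (T₀^[n] x) := fun n => by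
    induction n with
    | zero => rfl
    | succ n ih =>
      rw [Function.iterate_succ_apply', ih, Function.iterate_succ_apply']
      rfl
  have h1 : ∀ n, ap (S i) (pX i) T₀ n (Sum.inr x) = x.1 i := by
    intro n
    unfold ap
    rw [h0]
    show (S i).f.symm^[n] ((T₀^[n] x).1 i) = x.1 i
    rw [h.cover_iterate i n x]
    exact Function.LeftInverse.iterate (f := (S i).f) (g := (S i).f.symm)
      (fun z => Homeomorph.symm_apply_apply (S i).f z) n (x.1 i)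
  simp only [h1, ap_inl]
  exact tendsto_const_nhds.limUnder_eq

theorem DS_self (h : Setting S T₀ T₀) (i : Fin r) (z : ℍ) (x : X r) :
    DS F T₀ i (Sum.inl z) (Sum.inr x) = (F i).ds z (x.1 i) :=
  DU_self (S := fun i => rev (S i)) (F := fun i => (F i).rev) h.symm i z x

omit [Fib] in
theorem isType_rev {w : Fin r → ℍ} (hw : IsType F w) : IsType (fun i => (F i).rev) w :=
  fun i => (hw i).imp (fun h => Flat.reg_rev.2 h) id

end General

section Mat

variable {k : ℕ}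

theorem exists_pow_eq {A : Matrix (Fin k) (Fin k) ℤ} (hA : IsUnit A.det) {q : ℕ} (hq : 0 < q) :
    ∃ n : ℕ, 0 < n ∧ ∃ B : Matrix (Fin k) (Fin k) ℤ, A ^ n = 1 + (q : ℤ) • B := by
  have : NeZero q := ⟨hq.ne'⟩
  have hA' : IsUnit A := (Matrix.isUnit_iff_isUnit_det A).2 hA
  obtain ⟨u, hu⟩ : IsUnit ((Int.castRingHom (ZMod q)).mapMatrix A) := hA'.map _
  obtain ⟨n, hn, h1⟩ := isOfFinOrder_iff_pow_eq_one.1 (isOfFinOrder_of_finite u)
  have h2 : (Int.castRingHom (ZMod q)).mapMatrix (A ^ n) = 1 := by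
    rw [map_pow, ← hu, ← Units.val_pow_eq_pow_val, h1, Units.val_one]
  have h3 : ∀ i j, (q : ℤ) ∣ (A ^ n - 1) i j := fun i j => by
    have h4 : (Int.castRingHom (ZMod q)).mapMatrix (A ^ n - 1) = 0 := by
      rw [map_sub, h2, map_one, sub_self]
    have h5 := congrFun (congrFun h4 i) j
    exact (ZMod.intCast_zmod_eq_zero_iff_dvd _ _).1 h5
  choose B hB using h3
  refine ⟨n, hn, Matrix.of B, ?_⟩
  ext i j
  have h6 := hB i j
  rw [Matrix.sub_apply] at h6
  rw [Matrix.add_apply, Matrix.smul_apply, Matrix.of_apply, smul_eq_mul, ← h6]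
  ring

/-- Each rational vector is fixed by a power of `A`, modulo integer vectors. -/
theorem exists_fix_rat {A : Matrix (Fin k) (Fin k) ℤ} (hA : IsUnit A.det) (e : Fin k → ℚ) :
    ∃ n : ℕ, 0 < n ∧ ∃ v : Fin k → ℤ,
      (fun j => (e j : ℝ)) = Lin.lin (A ^ n) (fun j => (e j : ℝ)) + fun j => (v j : ℝ) := by
  obtain ⟨q, hq0, hq⟩ : ∃ q : ℕ, 0 < q ∧ ∀ j, ∃ p : ℤ, (q : ℝ) * (e j : ℝ) = p := by
    refine ⟨∏ j, (e j).den, Finset.prod_pos fun j _ => (e j).den_pos, fun j => ?_⟩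
    obtain ⟨c, hc⟩ := Finset.dvd_prod_of_mem (fun j => (e j).den) (Finset.mem_univ j)
    refine ⟨c * (e j).num, ?_⟩
    have h1 : (e j : ℝ) * ((e j).den : ℝ) = ((e j).num : ℝ) := by
      have h2 := Rat.mul_den_eq_num (e j)
      exact_mod_cast congrArg (fun x : ℚ => (x : ℝ)) h2
    rw [hc]
    push_cast
    calc ((e j).den : ℝ) * (c : ℝ) * (e j : ℝ) = c * ((e j : ℝ) * ((e j).den : ℝ)) := by ring
      _ = _ := by rw [h1]
  choose p hp using hq
  obtain ⟨n, hn, B, hB⟩ := exists_pow_eq hA hq0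
  refine ⟨n, hn, fun j => -(B.mulVec p) j, ?_⟩
  rw [lin_apply, hB]
  have h1 : (1 + (q : ℤ) • B).map (Int.cast : ℤ → ℝ) = 1 + (q : ℝ) • B.map (Int.cast : ℤ → ℝ) := by
    ext i j
    simp only [Matrix.map_apply, Matrix.add_apply, Matrix.smul_apply, smul_eq_mul, Int.cast_add,
      Int.cast_mul, Int.cast_natCast]
    congr 1
    by_cases hij : i = j
    · rw [hij, Matrix.one_apply_eq, Matrix.one_apply_eq, Int.cast_one]
    · rw [Matrix.one_apply_ne hij, Matrix.one_apply_ne hij, Int.cast_zero]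
  rw [h1, Matrix.add_mulVec, Matrix.one_mulVec, Matrix.smul_mulVec, ← Matrix.mulVec_smul]
  have h2 : (q : ℝ) • (fun j => (e j : ℝ)) = fun j => (p j : ℝ) := funext fun j => hp j
  rw [h2, add_assoc]
  have h3 : (B.map (Int.cast : ℤ → ℝ)).mulVec (fun j => (p j : ℝ)) =
      fun j => ((B.mulVec p) j : ℝ) := by
    funext j
    simp only [Matrix.mulVec, dotProduct, Matrix.map_apply, Int.cast_sum, Int.cast_mul]
  rw [h3]
  funext j
  simp

end Mat

variable [TFib] {r : ℕ} {S : Fin r → SurfaceMap} {D : TData S}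
  {D' : TData fun i => rev (S i)} {T₀ T : X r ≃ₜ X r} {F : ∀ i, Flat (S i)} {w : Fin r → ℍ}
  {m : ℕ} {γ : Fin r → SL(2, ℝ)} {δ : Equiv.Perm Fib.W}
  {c : (Fin TFib.k → ℝ) × (Fin TFib.k → ℝ)}

theorem Sit.self (h : Sit D D' T₀ T) : Sit D D' T₀ T₀ :=
  ⟨setting_self h.set, h.model, h.model', h.inv, h.hyp⟩

/-- Each lift which preserves a type has a level. -/
theorem exists_level (h : Sit D D' T₀ T) (hU : ∀ i, FUnip (F i)) (hw : IsType F w) (hm : 0 < m)
    (hγ : InΓ S γ) (hδ : δ ∈ Fib.Γ) (he : ∀ i, (F i).Eqv (w i) (γ i • (S i).f^[m] (w i))) :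
    ∃ c, IsLevel F D D' T₀ w m γ δ c := by
  obtain ⟨cu, hcu, hu⟩ := TU_lift h.model hU hw hm hγ hδ he
  have hself := setting_self h.set
  have hγi : InΓ (fun i => rev (S i)) (fun i => (γ i)⁻¹) := fun i => (S i).Γ.inv_mem (hγ i)
  obtain ⟨γ', δ', hγ', hδ', h1, h2⟩ := hom_dk_uniform hself.symm m hγi (Fib.Γ.inv_mem hδ)
  have he' : ∀ i, (F i).rev.Eqv (w i) (γ' i • (rev (S i)).f^[m] (w i)) := by
    intro i
    obtain ⟨H, hH, hHz⟩ := exists_liftPow (S := S i) m (hγ i)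
    have h3 : H (γ' i • (rev (S i)).f^[m] (w i)) = w i := by
      rw [← h2, hHz]
      have h4 : ∀ y : ℍ, (S i).f^[m] ((rev (S i)).f^[m] y) = y := fun y =>
        Function.LeftInverse.iterate (f := (rev (S i)).f) (g := (S i).f)
          (fun z => Homeomorph.apply_symm_apply (S i).f z) m y
      rw [h4, smul_inv_smul]
    have h5 : (F i).Eqv (w i) (H (w i)) := by
      rw [hHz]
      exact he i
    constructor
    · change (F i).ds (w i) (γ' i • (rev (S i)).f^[m] (w i)) = 0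
      rw [← (F i).ds_lift_zero hH, h3, (F i).dual_s.symm]
      exact h5.2
    · change (F i).du (w i) (γ' i • (rev (S i)).f^[m] (w i)) = 0
      rw [← (F i).du_lift_zero hH, h3, (F i).dual_u.symm]
      exact h5.1
  obtain ⟨cs, hcs, hs⟩ := TU_lift h.model' (fun i => (hU i).rev) (isType_rev hw) hm hγ' hδ' he'
  refine ⟨(cu, cs), ⟨hm, hγ, hδ, he, hcu, hcs, hu, fun T hT x hx => ?_⟩⟩
  obtain ⟨T', H, h', hT', hH⟩ := exists_liftOf (S := S) T m hγ hδ
  have h3 : ∀ i, DU (fun i => (F i).rev) T.symm i (Sum.inl (w i))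
      (Sum.inr (dk γ δ (T^[m] x))) = 0 := fun i => by
    rw [← hT']
    refine DS_zero_lift (F := F) hT h' ?_ (hx i)
    rw [hH]
    exact (he i).2
  have h4 := hs T.symm hT.symm _ h3
  have h5 : dk γ' δ' (T.symm^[m] (dk γ δ (T^[m] x))) = x := by
    rw [← h1 T.symm hT.symm, dk_inv]
    exact Function.LeftInverse.iterate (f := T) (g := T.symm)
      (fun z => Homeomorph.symm_apply_apply T z) m x
  rw [h5] at h4
  exact h4

/-- The level of a power of a lift. -/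
theorem IsLevel.pow (h : Sit D D' T₀ T) (hc : IsLevel F D D' T₀ w m γ δ c) {n : ℕ}
    (hn : 0 < n) : ∃ γ' δ', IsLevel F D D' T₀ w (m * n) γ' δ' c ∧
      ∀ T : X r ≃ₜ X r, Setting S T₀ T → ∀ x,
        dk γ' δ' (T^[m * n] x) = (fun x => dk γ δ (T^[m] x))^[n] x := by
  induction n, hn using Nat.le_induction with
  | base =>
    have e : m * Nat.succ 0 = m := Nat.mul_one m
    refine ⟨γ, δ, ?_, fun T _ x => ?_⟩
    · rw [e]
      exact hc
    · rw [e]
      rfl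
  | succ n hn ih =>
    obtain ⟨γn, δn, h1, h2⟩ := ih
    have hself := setting_self h.set
    obtain ⟨γ', δ', hγ', hδ', h3, h4⟩ := hom_dk_uniform hself m h1.mem h1.mem'
    have e : m * (n + 1) = m + m * n := by ring
    have h5 : ∀ T : X r ≃ₜ X r, Setting S T₀ T → ∀ x,
        dk (fun i => γ i * γ' i) (δ * δ') (T^[m * (n + 1)] x) =
          dk γ δ (T^[m] (dk γn δn (T^[m * n] x))) := fun T hT x => by
      rw [e, Function.iterate_add_apply, dk_mul, h3 T hT]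
    have hz : ∀ i (z : ℍ), (γ i * γ' i) • (S i).f^[m * (n + 1)] z =
        γ i • (S i).f^[m] (γn i • (S i).f^[m * n] z) := fun i z => by
      rw [e, Function.iterate_add_apply, mul_smul, h4]
    refine ⟨fun i => γ i * γ' i, δ * δ', ⟨?_, fun i => (S i).Γ.mul_mem (hc.mem i) (hγ' i),
      Fib.Γ.mul_mem hc.mem' hδ', fun i => ?_, hc.pr_u, hc.pr_s, fun T hT x hx => ?_,
      fun T hT x hx => ?_⟩, fun T hT x => ?_⟩
    · exact Nat.mul_pos hc.pos n.succ_pos
    · rw [hz]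
      obtain ⟨H, hH, hHz⟩ := exists_liftPow (S := S i) m (hc.mem i)
      have h6 := hc.eqv i
      have h7 := h1.eqv i
      rw [← hHz] at h6 ⊢
      constructor
      · have h8 := (F i).dual_u.triangle (w i) (H (w i)) (H (γn i • (S i).f^[m * n] (w i)))
        rw [h6.1, ((F i).du_lift_zero hH _ _).2 h7.1, add_zero] at h8
        exact le_antisymm h8 ((F i).du_nonneg _ _)
      · have h8 := (F i).dual_s.triangle (w i) (H (w i)) (H (γn i • (S i).f^[m * n] (w i)))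
        rw [h6.2, ((F i).ds_lift_zero hH _ _).2 h7.2, add_zero] at h8
        exact le_antisymm h8 ((F i).ds_nonneg _ _)
    · obtain ⟨T', H, h', hT', hH⟩ := exists_liftOf (S := S) T (m * n) h1.mem h1.mem'
      have hx' : ∀ i, DU F T i (Sum.inl (w i)) (Sum.inr (dk γn δn (T^[m * n] x))) = 0 :=
        fun i => by
          rw [← hT']
          refine DU_zero_lift (F := F) hT h' ?_ (hx i)
          rw [hH]
          exact (h1.eqv i).1
      rw [h5 T hT, hc.u T hT _ hx', h1.u T hT x hx, e, pow_add]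
      rfl
    · obtain ⟨T', H, h', hT', hH⟩ := exists_liftOf (S := S) T (m * n) h1.mem h1.mem'
      have hx' : ∀ i, DS F T i (Sum.inl (w i)) (Sum.inr (dk γn δn (T^[m * n] x))) = 0 :=
        fun i => by
          rw [← hT']
          refine DS_zero_lift (F := F) hT h' ?_ (hx i)
          rw [hH]
          exact (h1.eqv i).2
      have e' : m * (n + 1) = m * n + m := by ring
      rw [h5 T hT, h1.s T hT x hx, hc.s T hT _ hx', e', pow_add]
      rfl
    · rw [h5 T hT, h2 T hT, ← Function.iterate_succ_apply' (fun x => dk γ δ (T^[m] x))]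

/-- The translation of the torus coordinate. -/
noncomputable def tr (v : Fin TFib.k → ℤ) : Equiv.Perm (TFib.base.W × (Fin TFib.k → ℝ)) :=
  Equiv.prodCongr (Equiv.refl _) (Equiv.addRight fun j => (v j : ℝ))

theorem tr_mem (v : Fin TFib.k → ℤ) : tr v ∈ Fib.Γ :=
  mem_Γ.2 ⟨1, TFib.base.Γ.one_mem, v, fun _ => rfl⟩

theorem TU_tr (h : Setting S T₀ T) (hT₀ : ∀ x, T₀ x = skew S D.A D.τ x) (v : Fin TFib.k → ℤ)
    (x : X r) : TU D T (dk (fun _ => 1) (tr v) x) = TU D T x + D.sA.pr fun j => (v j : ℝ) := by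
  have h1 : IsDeck (surf S) (dk (r := r) (fun _ => 1) (tr v)) :=
    isDeck_dk (fun i => (S i).Γ.one_mem) (tr_mem v)
  rw [TU_act h hT₀ h1, ← chi_trans (D := D) v]
  congr 2
  funext y
  refine Prod.ext (funext fun i => one_smul _ _) ?_
  rfl

theorem dk_tr (v : Fin TFib.k → ℤ) (x : X r) :
    dk γ (tr v * δ) x = dk (fun _ => 1) (tr v) (dk γ δ x) := by
  rw [← dk_mul]
  simp only [one_mul]

/-- The level of a translate of a lift. -/
theorem IsLevel.shift (h : Sit D D' T₀ T) (hc : IsLevel F D D' T₀ w m γ δ c)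
    {v : Fin TFib.k → ℤ} {e : Fin TFib.k → ℝ}
    (he : e = (Lin.lin D.A ^ m) e + fun j => (v j : ℝ)) :
    IsLevel F D D' T₀ w m γ (tr v * δ) (c.1 + D.sA.pr e, c.2 + D'.sA.pr e) := by
  have hpr : ∀ (L : (Fin TFib.k → ℝ) →L[ℝ] (Fin TFib.k → ℝ)) (s : Split L) (n : ℕ)
      (x : Fin TFib.k → ℝ), s.pr ((L ^ n) x) = (L ^ n) (s.pr x) := by
    intro L s n x
    induction n generalizing x with
    | zero => rfl
    | succ n ih =>
      rw [pow_succ]
      change s.pr ((L ^ n) (L x)) = (L ^ n) (L (s.pr x))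
      rw [ih]
      congr 1
      exact DFunLike.congr_fun s.pr_L x
  have hinv : ∀ (n : ℕ) (x : Fin TFib.k → ℝ), (Lin.lin D'.A ^ n) ((Lin.lin D.A ^ n) x) = x := by
    intro n x
    rw [h.inv, ← lin_pow, ← lin_pow, ← ContinuousLinearMap.comp_apply, ← lin_mul,
      Matrix.inv_pow', Matrix.nonsing_inv_mul, lin_one]
    · rfl
    · rw [Matrix.det_pow]
      exact h.hyp.1.pow n
  refine ⟨hc.pos, hc.mem, Fib.Γ.mul_mem (tr_mem v) hc.mem', hc.eqv, ?_, ?_,
    fun T hT x hx => ?_, fun T hT x hx => ?_⟩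
  · rw [map_add, hc.pr_u]
    congr 1
    exact DFunLike.congr_fun D.sA.pr_pr e
  · rw [map_add, hc.pr_s]
    congr 1
    exact DFunLike.congr_fun D'.sA.pr_pr e
  · rw [dk_tr, TU_tr hT h.model]
    have h1 := hc.u T hT x hx
    have h2 : D.sA.pr e = (Lin.lin D.A ^ m) (D.sA.pr e) + D.sA.pr fun j => (v j : ℝ) := by
      conv_lhs => rw [he]
      rw [map_add, hpr]
    have h3 : TU D T (dk γ δ (T^[m] x)) + (D.sA.pr fun j => (v j : ℝ)) - (c.1 + D.sA.pr e) =
        (TU D T (dk γ δ (T^[m] x)) - c.1) - (D.sA.pr e - D.sA.pr fun j => (v j : ℝ)) := by abel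
    rw [h3, h1, sub_eq_of_eq_add h2, ← map_sub, sub_sub]
  · have h0 := TU_tr (D := D') hT.symm h.model' v (dk γ δ (T^[m] x))
    have h0' : TU D' T.symm (dk γ (tr v * δ) (T^[m] x)) =
        TU D' T.symm (dk γ δ (T^[m] x)) + D'.sA.pr fun j => (v j : ℝ) := by
      rw [dk_tr]
      exact h0
    have h1 := hc.s T hT x hx
    have h2 : D'.sA.pr e = (Lin.lin D'.A ^ m) (D'.sA.pr e - D'.sA.pr fun j => (v j : ℝ)) := by
      have h3 : D'.sA.pr e - (D'.sA.pr fun j => (v j : ℝ)) = D'.sA.pr ((Lin.lin D.A ^ m) e) := by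
        rw [← map_sub]
        congr 1
        exact sub_eq_of_eq_add he
      rw [h3, ← hpr, hinv]
    rw [h0']
    have h4 : TU D' T.symm (dk γ δ (T^[m] x)) + (D'.sA.pr fun j => (v j : ℝ)) -
        (c.2 + D'.sA.pr e) = (TU D' T.symm (dk γ δ (T^[m] x)) - c.2) -
          (D'.sA.pr e - D'.sA.pr fun j => (v j : ℝ)) := by abel
    change TU D' T.symm x - (c.2 + D'.sA.pr e) = (Lin.lin D'.A ^ m)
      (TU D' T.symm (dk γ δ (T^[m] x)) + (D'.sA.pr fun j => (v j : ℝ)) - (c.2 + D'.sA.pr e))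
    rw [h4, map_sub, ← h1, ← h2]
    abel

theorem lin_inv_pow (h : Sit D D' T₀ T) (n : ℕ) (x : Fin TFib.k → ℝ) :
    (Lin.lin D'.A ^ n) ((Lin.lin D.A ^ n) x) = x := by
  rw [h.inv, ← lin_pow, ← lin_pow, ← ContinuousLinearMap.comp_apply, ← lin_mul,
    Matrix.inv_pow', Matrix.nonsing_inv_mul, lin_one]
  · rfl
  · rw [Matrix.det_pow]
    exact h.hyp.1.pow n

/-- A lift has at most one level. -/
theorem IsLevel.unique (h : Sit D D' T₀ T) {c' : (Fin TFib.k → ℝ) × (Fin TFib.k → ℝ)}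
    (hc : IsLevel F D D' T₀ w m γ δ c) (hc' : IsLevel F D D' T₀ w m γ δ c') : c = c' := by
  have hself := setting_self h.set
  have hw : ∀ i, DU F T₀ i (Sum.inl (w i)) (Sum.inr
      ((w, Classical.arbitrary Fib.W) : X r)) = 0 := fun i => by
    rw [DU_self hself]
    exact (F i).dual_u.self (w i)
  have hw' : ∀ i, DS F T₀ i (Sum.inl (w i)) (Sum.inr
      ((w, Classical.arbitrary Fib.W) : X r)) = 0 := fun i => by
    rw [DS_self hself]
    exact (F i).dual_s.self (w i)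
  have h1 := hc.u T₀ hself _ hw
  have h2 := hc'.u T₀ hself _ hw
  have h3 := hc.s T₀ hself _ hw'
  have h4 := hc'.s T₀ hself _ hw'
  have h5 : (Lin.lin D.A ^ m) (c.1 - c'.1) = c.1 - c'.1 := by
    have h6 := congrArg₂ (· - ·) h2 h1
    rw [← map_sub] at h6
    have h7 : ∀ a b d : Fin TFib.k → ℝ, (a - b) - (a - d) = d - b := fun a b d => by abel
    rw [h7, h7] at h6
    exact h6.symm
  have h6 : (Lin.lin D'.A ^ m) (c.2 - c'.2) = c.2 - c'.2 := by
    have h6 := congrArg₂ (· - ·) h4 h3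
    rw [← map_sub] at h6
    have h7 : ∀ a b d : Fin TFib.k → ℝ, (a - b) - (a - d) = d - b := fun a b d => by abel
    rw [h7, h7] at h6
    exact h6.symm
  have h8 : c.1 - c'.1 = 0 := one_sub_injective h.hyp hc.pos h5
  have h9 : c.2 - c'.2 = 0 := by
    refine one_sub_injective (A := D'.A) ?_ hc.pos h6
    rw [h.inv]
    exact hyp_inv h.hyp
  exact Prod.ext (sub_eq_zero.1 h8) (sub_eq_zero.1 h9)

theorem pr_inv' (h : Sit D D' T₀ T) (v : Fin TFib.k → ℝ) : D'.sA.pr v = v - D.sA.pr v := by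
  have h1 : ∀ (B : Matrix (Fin TFib.k) (Fin TFib.k) ℤ) (s : Split (Lin.lin B)),
      B = D.A⁻¹ → s.pr = ContinuousLinearMap.id ℝ _ - D.sA.pr := by
    rintro B s rfl
    exact pr_inv h.hyp D.sA s
  have h2 := h1 D'.A D'.sA h.inv
  rw [h2]
  rfl

/-- The levels of a type are dense. -/
theorem dense_RT (h : Sit D D' T₀ T) (hU : ∀ i, FUnip (F i)) (hw : IsType F w)
    {a b : Fin TFib.k → ℝ} (ha : D.sA.pr a = a) (hb : D'.sA.pr b = b) {ε : ℝ} (hε : 0 < ε) :
    ∃ c, RT F D D' T₀ w c ∧ dist c (a, b) < ε := by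
  obtain ⟨m, T', H, hm, ⟨γ, δ, hγ, hδ, hT, hH⟩, he⟩ := exists_lift (F := F) h.set hw
  have he' : ∀ i, (F i).Eqv (w i) (γ i • (S i).f^[m] (w i)) := fun i => by
    rw [← hH]
    exact (he i).1
  obtain ⟨c, hc⟩ := exists_level h hU hw hm hγ hδ he'
  have hcont : Continuous fun e : Fin TFib.k → ℝ => (c.1 + D.sA.pr e, c.2 + D'.sA.pr e) :=
    (continuous_const.add D.sA.pr.continuous).prodMk
      (continuous_const.add D'.sA.pr.continuous)
  have hdense : DenseRange fun e : Fin TFib.k → ℚ => fun j => (e j : ℝ) :=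
    DenseRange.piMap fun _ => Rat.denseRange_cast
  have hval : (c.1 + D.sA.pr ((a - c.1) + (b - c.2)), c.2 + D'.sA.pr ((a - c.1) + (b - c.2))) =
      (a, b) := by
    have h1 : D.sA.pr (b - c.2) = 0 := by
      have h2 : D'.sA.pr (b - c.2) = b - c.2 := by rw [map_sub, hb, hc.pr_s]
      rw [pr_inv' h] at h2
      exact sub_eq_self.1 h2
    have h3 : D.sA.pr (a - c.1) = a - c.1 := by rw [map_sub, ha, hc.pr_u]
    refine Prod.ext ?_ ?_
    · change c.1 + D.sA.pr ((a - c.1) + (b - c.2)) = a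
      rw [map_add, h1, h3]
      abel
    · change c.2 + D'.sA.pr ((a - c.1) + (b - c.2)) = b
      rw [pr_inv' h, map_add, h1, h3]
      abel
  have hopen : IsOpen {e : Fin TFib.k → ℝ |
      dist (c.1 + D.sA.pr e, c.2 + D'.sA.pr e) (a, b) < ε} :=
    isOpen_lt (hcont.dist continuous_const) continuous_const
  obtain ⟨e, he1⟩ := hdense.exists_mem_open hopen ⟨(a - c.1) + (b - c.2), by
    change dist (c.1 + D.sA.pr ((a - c.1) + (b - c.2)),
      c.2 + D'.sA.pr ((a - c.1) + (b - c.2))) (a, b) < ε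
    rw [hval, dist_self]
    exact hε⟩
  obtain ⟨n, hn, v, hv⟩ := exists_fix_rat (A := D.A ^ m)
    (by rw [Matrix.det_pow]; exact h.hyp.1.pow m) e
  obtain ⟨γ', δ', h1, -⟩ := hc.pow h hn
  have hv' : (fun j => (e j : ℝ)) = (Lin.lin D.A ^ (m * n)) (fun j => (e j : ℝ)) +
      fun j => (v j : ℝ) := by
    conv_lhs => rw [hv]
    rw [← pow_mul, lin_pow]
  exact ⟨_, ⟨m * n, γ', tr v * δ', h1.shift h hv'⟩, he1⟩

/-- Levels of two types for lifts with the same exponent. -/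
theorem IsLevel.common (h : Sit D D' T₀ T) {w' : Fin r → ℍ} {m' : ℕ} {γ' : Fin r → SL(2, ℝ)}
    {δ' : Equiv.Perm Fib.W} {c' : (Fin TFib.k → ℝ) × (Fin TFib.k → ℝ)}
    (hc : IsLevel F D D' T₀ w m γ δ c) (hc' : IsLevel F D D' T₀ w' m' γ' δ' c') :
    ∃ M γ₁ δ₁ γ₂ δ₂, IsLevel F D D' T₀ w M γ₁ δ₁ c ∧ IsLevel F D D' T₀ w' M γ₂ δ₂ c' := by
  obtain ⟨γ₁, δ₁, h1, -⟩ := hc.pow h hc'.pos
  obtain ⟨γ₂, δ₂, h2, -⟩ := hc'.pow h hc.pos
  rw [mul_comm] at h2
  exact ⟨_, _, _, _, _, h1, h2⟩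

end Pool.Agent.ANO5.Lev
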