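import Pool.Agent.ANO5.Lin.TorType

/-!
# ANO5, module Lev: levels of types (definitions for Cnt, Conn, Typ, End, Fin)

`Sit D D' T₀ T`: the situation. `T₀` is the model map with the data `D` (for `T₀⁻¹`: `D'`), the
matrix is hyperbolic, `T` is in the same homotopy class.

`IsLevel F D D' T₀ w m γ δ c`: the lift `T' = dk γ δ ∘ T^m` preserves the type `w` and `c` is its
level: `TU (T' x) - c.1 = A^m (TU x - c.1)` and the same for `TS := TU D' T⁻¹` and `T'⁻¹`, for all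
maps `T` of the homotopy class (also for `T₀`), with the same `c`.
-/

set_option autoImplicit false

open scoped UpperHalfPlane MatrixGroups
open Set Filter Topology

namespace Pool.Agent.ANO5.Lev

open Pool.Agent.ANO (IsHyperbolicMatrix)
open Pool.Agent.ANO3 Pool.Agent.ANO5.A1 Pool.Agent.ANO5.A2 Pool.Agent.ANO5.A3 Pool.Agent.ANO5.Tor
  Pool.Agent.ANO5.Lin

variable [TFib] {r : ℕ} {S : Fin r → SurfaceMap}

/-- The situation. -/
structure Sit (D : TData S) (D' : TData fun i => rev (S i)) (T₀ T : X r ≃ₜ X r) : Prop where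
  set : Setting S T₀ T
  model : ∀ x, T₀ x = skew S D.A D.τ x
  model' : ∀ x, T₀.symm x = skew (fun i => rev (S i)) D'.A D'.τ x
  inv : D'.A = D.A⁻¹
  hyp : IsHyperbolicMatrix D.A

/-- `c` is the level of the lift `dk γ δ ∘ T^m` which preserves the type `w`. -/
structure IsLevel (F : ∀ i, Flat (S i)) (D : TData S) (D' : TData fun i => rev (S i))
    (T₀ : X r ≃ₜ X r) (w : Fin r → ℍ) (m : ℕ) (γ : Fin r → SL(2, ℝ)) (δ : Equiv.Perm Fib.W)
    (c : (Fin TFib.k → ℝ) × (Fin TFib.k → ℝ)) : Prop where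
  pos : 0 < m
  mem : InΓ S γ
  mem' : δ ∈ Fib.Γ
  eqv : ∀ i, (F i).Eqv (w i) (γ i • (S i).f^[m] (w i))
  pr_u : D.sA.pr c.1 = c.1
  pr_s : D'.sA.pr c.2 = c.2
  u : ∀ T : X r ≃ₜ X r, Setting S T₀ T → ∀ x,
    (∀ i, DU F T i (Sum.inl (w i)) (Sum.inr x) = 0) →
      TU D T (dk γ δ (T^[m] x)) - c.1 = (Lin.lin D.A ^ m) (TU D T x - c.1)
  s : ∀ T : X r ≃ₜ X r, Setting S T₀ T → ∀ x,
    (∀ i, DS F T i (Sum.inl (w i)) (Sum.inr x) = 0) →
      TU D' T.symm x - c.2 = (Lin.lin D'.A ^ m) (TU D' T.symm (dk γ δ (T^[m] x)) - c.2)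

/-- `c` is the level of some lift which preserves the type `w`. -/
def RT (F : ∀ i, Flat (S i)) (D : TData S) (D' : TData fun i => rev (S i))
    (T₀ : X r ≃ₜ X r) (w : Fin r → ℍ) (c : (Fin TFib.k → ℝ) × (Fin TFib.k → ℝ)) : Prop :=
  ∃ m γ δ, IsLevel F D D' T₀ w m γ δ c

end Pool.Agent.ANO5.Lev
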